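import Pool.Agent.Work.MP_1e2692_co.Main

set_option autoImplicit false

open Pool.Agent.Work.MP_1e2692_co in
/-- There is a finite connected bipartite graph (with 17 vertices) whose fully active cop number is
smaller than its cop number. So the inequality `c'(G) ≥ c(G)` fails for bipartite graphs. -/
theorem Pool.Agent.Results.MP_1e2692_co.BipartiteCounterexample.result :
    ∃ G : SimpleGraph (Fin 17), G.Connected ∧ G.IsBipartite ∧
      fullyActiveCopNumber G < copNumber G :=
  Pool.Agent.Work.MP_1e2692_co.main
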